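import Mathlib

/-! Filling one of two holes can drop the number of distinct squares by more than
`7 (n - 1) / 10`. -/

namespace Pool.Agent.Results.MP_322323_co.TwoHoleDrop

/-- A binary partial word: `none` is a hole, `some b` is the letter `b`. -/
abbrev PWord := List (Option Bool)

/-- The number of holes of a binary partial word. -/
def holes (w : PWord) : ℕ := w.countP (fun a => a.isNone)

/-- `u ⊂ v` for a full word `v`: same length, and `v` carries the same letter as `u` at every
position at which `u` has no hole. -/
def Compat (u : PWord) (v : List Bool) : Prop :=
  List.Forall₂ (fun a b => a = none ∨ a = some b) u v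

/-- The nonempty full words `x` such that some factor `u` of `w` has `u ⊂ xx`. -/
def sqSet (w : PWord) : Set (List Bool) :=
  {x | x ≠ [] ∧ ∃ u : PWord, u <:+: w ∧ u.length = 2 * x.length ∧ Compat u (x ++ x)}

/-- The number of distinct squares of a binary partial word. -/
noncomputable def Sq (w : PWord) : ℕ := (sqSet w).ncard

/-- `w'` arises from `w` by replacing exactly one hole by a letter. -/
def Strengthening (w w' : PWord) : Prop :=
  ∃ (p s : PWord) (b : Bool), w = p ++ none :: s ∧ w' = p ++ some b :: s

/-- The maximal decrease of the number of distinct squares obtained by filling one hole of a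
binary partial word of length `n` with exactly `h` holes. -/
noncomputable def DeltaSq (h n : ℕ) : ℤ :=
  sSup {d : ℤ | ∃ w w' : PWord, w.length = n ∧ holes w = h ∧ Strengthening w w' ∧
    d = (Sq w : ℤ) - (Sq w' : ℤ)}

/-! ### Computation -/

/-- All full words compatible with both `u` and `v` (assumed of the same length). -/
def merge : PWord → PWord → List (List Bool)
  | [], [] => [[]]
  | a :: u, b :: v =>
      (if (a = none ∨ a = some false) ∧ (b = none ∨ b = some false) then
        (merge u v).map (fun x => false :: x) else []) ++
      (if (a = none ∨ a = some true) ∧ (b = none ∨ b = some true) then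
        (merge u v).map (fun x => true :: x) else [])
  | _, _ => []

theorem mem_merge (u v : PWord) (x : List Bool) :
    x ∈ merge u v ↔ Compat u x ∧ Compat v x := by
  induction u generalizing v x with
  | nil =>
    cases v with
    | nil =>
      cases x with
      | nil => simp [merge, Compat]
      | cons c x => simp [merge, Compat]
    | cons b v =>
      cases x with
      | nil => simp [merge, Compat]
      | cons c x => simp [merge, Compat]
  | cons a u ih =>
    cases v with
    | nil =>
      cases x with
      | nil => simp [merge, Compat]
      | cons c x => simp [merge, Compat]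
    | cons b v =>
      have key : x ∈ merge (a :: u) (b :: v) ↔
          (((a = none ∨ a = some false) ∧ (b = none ∨ b = some false)) ∧
            ∃ y, (Compat u y ∧ Compat v y) ∧ false :: y = x) ∨
          (((a = none ∨ a = some true) ∧ (b = none ∨ b = some true)) ∧
            ∃ y, (Compat u y ∧ Compat v y) ∧ true :: y = x) := by
        rw [merge, List.mem_append]
        apply or_congr
        · split_ifs with h
          · simp only [List.mem_map, ih, h, true_and]
          · simp [h]
        · split_ifs with h
          · simp only [List.mem_map, ih, h, true_and]
          · simp [h]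
      rw [key]
      cases x with
      | nil => simp [Compat]
      | cons c x =>
        cases c with
        | false =>
          simp only [Compat, List.forall₂_cons, List.cons.injEq, true_and, exists_eq_right,
            Bool.true_eq_false, false_and, and_false, exists_const, or_false]
          tauto
        | true =>
          simp only [Compat, List.forall₂_cons, List.cons.injEq, true_and, exists_eq_right,
            Bool.false_eq_true, false_and, and_false, exists_const, false_or]
          tauto

/-- All square roots, as a list. -/
def allSq (w : PWord) : List (List Bool) :=
  w.tails.flatMap fun t => ((List.range t.length).filter fun p => 0 < p ∧ 2 * p ≤ t.length).flatMap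
    fun p => merge (t.take p) ((t.drop p).take p)

theorem mem_allSq (w : PWord) (x : List Bool) : x ∈ allSq w ↔ x ∈ sqSet w := by
  unfold allSq sqSet
  simp only [List.mem_flatMap, List.mem_tails, List.mem_filter, List.mem_range, mem_merge,
    Set.mem_ofPred_eq]
  constructor
  · rintro ⟨t, ht, p, ⟨hp1, hp2⟩, h1, h2⟩
    simp only [decide_eq_true_eq] at hp2
    have hl1 := h1.length_eq
    have hl2 := h2.length_eq
    simp only [List.length_take, List.length_drop] at hl1 hl2
    have hx : x.length = p := by omega
    refine ⟨?_, t.take (2 * p), ?_, ?_, ?_⟩
    · intro h; subst h; simp at hx; omega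
    · exact (List.take_prefix _ _).isInfix.trans ht.isInfix
    · rw [List.length_take, hx]; omega
    · have : t.take (2 * p) = t.take p ++ (t.drop p).take p := by
        rw [two_mul, List.take_add]
      rw [this]
      exact List.rel_append h1 h2
  · rintro ⟨hx, u, hu, hl, hc⟩
    obtain ⟨s, t, hst⟩ := hu
    have hxp : 0 < x.length := List.length_pos_iff.mpr hx
    refine ⟨u ++ t, ⟨s, by rw [← hst, List.append_assoc]⟩, x.length, ⟨?_, ?_⟩, ?_, ?_⟩
    · simp; omega
    · simp; omega
    · have h := List.forall₂_take x.length hc
      rw [List.take_left'] at h
      · rw [List.take_append_of_le_length (by omega)]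
        exact h
      · rfl
    · have h := List.forall₂_drop x.length hc
      rw [List.drop_left'] at h
      · rw [List.drop_append_of_le_length (by omega)]
        have h2 : ((u.drop x.length ++ t).take x.length) = u.drop x.length := by
          rw [List.take_left']
          simp; omega
        rw [h2]
        exact h
      · rfl

theorem Sq_eq (w : PWord) : Sq w = (allSq w).dedup.length := by
  unfold Sq
  have : sqSet w = ((allSq w).toFinset : Set (List Bool)) := by
    ext x
    simp [mem_allSq]
  rw [this, Set.ncard_coe_finset, List.card_toFinset]

/-- The word `0111110111 h h 1011111011` of length 22. -/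
def w0 : PWord :=
  [some false, some true, some true, some true, some true, some true, some false, some true,
   some true, some true, none, none, some true, some false, some true, some true, some true,
   some true, some true, some false, some true, some true]

/-- The word `0111110111 h 0 1011111011` of length 22. -/
def w1 : PWord :=
  [some false, some true, some true, some true, some true, some true, some false, some true,
   some true, some true, none, some false, some true, some false, some true, some true, some true,
   some true, some true, some false, some true, some true]

theorem Sq_w0 : Sq w0 = 23 := by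
  rw [Sq_eq]
  decide +kernel

theorem Sq_w1 : Sq w1 = 8 := by
  rw [Sq_eq]
  decide +kernel

theorem bdd (h n : ℕ) : BddAbove {d : ℤ | ∃ w w' : PWord, w.length = n ∧ holes w = h ∧
    Strengthening w w' ∧ d = (Sq w : ℤ) - (Sq w' : ℤ)} := by
  have hf : {w : PWord | w.length = n}.Finite := List.finite_length_eq _ n
  have h2 : (Set.image2 (fun w w' : PWord => (Sq w : ℤ) - (Sq w' : ℤ))
      {w : PWord | w.length = n} {w : PWord | w.length = n}).Finite := hf.image2 _ hf
  apply (h2.bddAbove).mono
  rintro d ⟨w, w', hw, -, ⟨p, s, b, hp, hs⟩, rfl⟩
  refine ⟨w, hw, w', ?_, rfl⟩
  rw [Set.mem_ofPred_eq, hs, ← hw, hp]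
  simp

/-- The asserted identity fails at length `22`: there the largest decrease is at least `15`,
whereas `⌊7 * 21 / 10⌋ = 14`. -/
theorem result : 15 ≤ DeltaSq 2 22 ∧
    ¬ (∀ n : ℕ, 8 ≤ n → DeltaSq 2 n = ((7 * (n - 1) / 10 : ℕ) : ℤ)) := by
  have key : 15 ≤ DeltaSq 2 22 := by
    unfold DeltaSq
    apply le_csSup (bdd 2 22)
    refine ⟨w0, w1, rfl, by decide, ?_, ?_⟩
    · exact ⟨w0.take 11, w0.drop 12, false, by decide, by decide⟩
    · rw [Sq_w0, Sq_w1]; norm_num
  refine ⟨key, fun h => ?_⟩
  have := h 22 (by norm_num)
  rw [this] at key
  norm_num at key

end Pool.Agent.Results.MP_322323_co.TwoHoleDrop
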